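import Pool.Agent.Y119.HG.Defs

/-!
# Project HG, LIM: the limit matrix has at most `m + 1` parameters besides scalars
-/

set_option autoImplicit false

open Matrix Pool.Agent.Y119.HG

namespace Pool.Agent.Y362.HG

section entries

variable {L : Type} [Field L] {n : ℕ}

theorem mul_Nn_succ (Z : Matrix (Fin n) (Fin n) L) (i : Fin n) (j : ℕ) (hj : j + 1 < n) :
    (Z * Nn n L) i ⟨j + 1, hj⟩ = Z i ⟨j, by omega⟩ := by
  rw [Matrix.mul_apply, Finset.sum_eq_single (⟨j, by omega⟩ : Fin n)]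
  · simp [Nn]
  · intro b _ hb
    have : ¬ (j = (b : ℕ)) := fun h => hb (Fin.ext h.symm)
    simp [Nn, this]
  · intro h
    exact absurd (Finset.mem_univ _) h

theorem mul_Nn_zero (Z : Matrix (Fin n) (Fin n) L) (i : Fin n) (h0 : 0 < n) :
    (Z * Nn n L) i ⟨0, h0⟩ = 0 := by
  rw [Matrix.mul_apply]
  apply Finset.sum_eq_zero
  intro b _
  simp [Nn]

theorem Nn_mul (Z : Matrix (Fin n) (Fin n) L) (i : ℕ) (hi : i + 1 < n) (j : Fin n) :
    (Nn n L * Z) ⟨i, by omega⟩ j = Z ⟨i + 1, hi⟩ j := by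
  rw [Matrix.mul_apply, Finset.sum_eq_single (⟨i + 1, hi⟩ : Fin n)]
  · simp [Nn]
  · intro b _ hb
    have : ¬ ((b : ℕ) = i + 1) := fun h => hb (Fin.ext h)
    simp [Nn, this]
  · intro h
    exact absurd (Finset.mem_univ _) h

theorem Jn_mul (Z : Matrix (Fin n) (Fin n) L) (i j : ℕ) (hi : i < n) (hj : j < n) (hij : i + j + 1 = n) (l : Fin n) :
    (Jn n L * Z) ⟨i, hi⟩ l = (-1) ^ i * Z ⟨j, hj⟩ l := by
  rw [Matrix.mul_apply, Finset.sum_eq_single (⟨j, hj⟩ : Fin n)]
  · simp [Jn, hij]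
  · intro b _ hb
    have : ¬ (i + (b : ℕ) + 1 = n) := fun h => hb (Fin.ext (by simp only; omega))
    simp [Jn, this]
  · intro h
    exact absurd (Finset.mem_univ _) h

theorem trans_mul_Jn (Z : Matrix (Fin n) (Fin n) L) (i : Fin n) (l j : ℕ) (hl : l < n) (hj : j < n)
    (hij : j + l + 1 = n) : (Zᵀ * Jn n L) i ⟨l, hl⟩ = (-1) ^ j * Z ⟨j, hj⟩ i := by
  rw [Matrix.mul_apply, Finset.sum_eq_single (⟨j, hj⟩ : Fin n)]
  · simp [Jn, hij, mul_comm]
  · intro b _ hb
    have : ¬ ((b : ℕ) + l + 1 = n) := fun h => hb (Fin.ext (by simp only; omega))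
    simp [Jn, this]
  · intro h
    exact absurd (Finset.mem_univ _) h

end entries

section der

variable {k L : Type} [Field k] [Field L] [Algebra k L] {a b c : Type} [Fintype b]

theorem map_mul_der (D : Derivation k L L) (A : Matrix a b L) (B : Matrix b c L) :
    (A * B).map D = A.map D * B + A * B.map D := by
  ext i j
  simp only [Matrix.map_apply, Matrix.mul_apply, Matrix.add_apply]
  rw [map_sum, ← Finset.sum_add_distrib]
  refine Finset.sum_congr rfl fun x _ => ?_
  rw [Derivation.leibniz]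
  simp only [smul_eq_mul]
  ring

theorem map_smul_der (D : Derivation k L L) (s : L) (B : Matrix a c L) :
    (s • B).map D = D s • B + s • B.map D := by
  ext i j
  simp only [Matrix.map_apply, Matrix.smul_apply, Matrix.add_apply, smul_eq_mul]
  rw [Derivation.leibniz]
  simp only [smul_eq_mul]
  ring

theorem map_alg_der (D : Derivation k L L) (M : Matrix a c k) : (M.map (algebraMap k L)).map D = 0 := by
  ext i j
  simp only [Matrix.map_apply, Matrix.zero_apply]
  exact D.map_algebraMap _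

theorem map_Nn_der (D : Derivation k L L) (n : ℕ) : (Nn n L).map D = 0 := by
  ext i j
  simp only [Matrix.map_apply, Nn, Matrix.of_apply, Matrix.zero_apply]
  split_ifs
  · exact D.map_one_eq_zero
  · exact map_zero D

theorem map_Jn_der (D : Derivation k L L) (n : ℕ) : (Jn n L).map D = 0 := by
  ext i j
  simp only [Matrix.map_apply, Jn, Matrix.of_apply, Matrix.zero_apply]
  split_ifs
  · rw [Derivation.leibniz_pow]
    simp
  · exact map_zero D

end der

/-- a matrix commuting with the shift, antisymmetric up to a multiple of `J`, with odd coefficients zero -/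
theorem scalar_of {L : Type} [Field L] [CharZero L] (m : ℕ) (hm : 1 ≤ m) (Z : Matrix (Fin (2 * m)) (Fin (2 * m)) L)
    (hc : Z * Nn (2 * m) L = Nn (2 * m) L * Z) (β : L)
    (hJ : Zᵀ * Jn (2 * m) L + Jn (2 * m) L * Z = β • Jn (2 * m) L)
    (hodd : ∀ l : Fin m, Z ⟨0, by omega⟩ ⟨2 * (l : ℕ) + 1, by omega⟩ = 0) :
    Z = Z ⟨0, by omega⟩ ⟨0, by omega⟩ • (1 : Matrix (Fin (2 * m)) (Fin (2 * m)) L) := by
  -- the two relations from commutation
  have h1 : ∀ (i : ℕ) (hi : i + 1 < 2 * m), Z ⟨i + 1, hi⟩ ⟨0, by omega⟩ = 0 := by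
    intro i hi
    have := congrFun (congrFun hc ⟨i, by omega⟩) ⟨0, by omega⟩
    rw [mul_Nn_zero, Nn_mul Z i hi] at this
    exact this.symm
  have h2 : ∀ (i j : ℕ) (hi : i + 1 < 2 * m) (hj : j + 1 < 2 * m),
      Z ⟨i + 1, hi⟩ ⟨j + 1, hj⟩ = Z ⟨i, by omega⟩ ⟨j, by omega⟩ := by
    intro i j hi hj
    have := congrFun (congrFun hc ⟨i, by omega⟩) ⟨j + 1, hj⟩
    rw [mul_Nn_succ Z _ j hj, Nn_mul Z i hi] at this
    exact this.symm
  -- iterate
  have h3 : ∀ (t i j : ℕ) (hi : i + t < 2 * m) (hj : j + t < 2 * m),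
      Z ⟨i + t, hi⟩ ⟨j + t, hj⟩ = Z ⟨i, by omega⟩ ⟨j, by omega⟩ := by
    intro t
    induction t with
    | zero => intro i j hi hj; rfl
    | succ t ih =>
      intro i j hi hj
      rw [← ih i j (by omega) (by omega)]
      exact h2 (i + t) (j + t) hi hj
  -- even coefficients
  have heven : ∀ (l : ℕ) (hl : l < 2 * m), 1 ≤ l → l % 2 = 0 → Z ⟨0, by omega⟩ ⟨l, hl⟩ = 0 := by
    intro l hl h1l hlev
    have h := congrFun (congrFun hJ ⟨2 * m - 1, by omega⟩) ⟨l, hl⟩
    rw [Matrix.add_apply, Jn_mul Z (2 * m - 1) 0 (by omega) (by omega) (by omega),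
      trans_mul_Jn Z _ l (2 * m - 1 - l) hl (by omega) (by omega), Matrix.smul_apply] at h
    have hz : (Jn (2 * m) L) ⟨2 * m - 1, by omega⟩ ⟨l, hl⟩ = 0 := by
      have : ¬ (2 * m - 1 + l + 1 = 2 * m) := by omega
      simp [Jn, this]
    rw [hz, smul_zero, Odd.neg_one_pow (by rw [Nat.odd_iff]; omega), Odd.neg_one_pow (by rw [Nat.odd_iff]; omega)] at h
    have h4 : Z ⟨2 * m - 1 - l, by omega⟩ ⟨2 * m - 1, by omega⟩ = Z ⟨0, by omega⟩ ⟨l, hl⟩ := by
      have h5 := h3 (2 * m - 1 - l) 0 l (by omega) (by omega)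
      have e1 : (⟨0 + (2 * m - 1 - l), by omega⟩ : Fin (2 * m)) = ⟨2 * m - 1 - l, by omega⟩ := Fin.ext (by simp only; omega)
      have e2 : (⟨l + (2 * m - 1 - l), by omega⟩ : Fin (2 * m)) = ⟨2 * m - 1, by omega⟩ := Fin.ext (by simp only; omega)
      rw [e1, e2] at h5
      exact h5
    rw [h4] at h
    have h6 : (2 : L) * Z ⟨0, by omega⟩ ⟨l, hl⟩ = 0 := by linear_combination -h
    rcases mul_eq_zero.1 h6 with h7 | h7
    · exact absurd h7 two_ne_zero
    · exact h7
  have hrow : ∀ (l : ℕ) (hl : l < 2 * m), 1 ≤ l → Z ⟨0, by omega⟩ ⟨l, hl⟩ = 0 := by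
    intro l hl h1l
    rcases Nat.mod_two_eq_zero_or_one l with h | h
    · exact heven l hl h1l h
    · have h8 := hodd ⟨l / 2, by omega⟩
      have e1 : (⟨2 * (l / 2) + 1, by omega⟩ : Fin (2 * m)) = ⟨l, hl⟩ := Fin.ext (by simp only; omega)
      simp only at h8
      rw [e1] at h8
      exact h8
  ext i j
  obtain ⟨i, hi⟩ := i
  obtain ⟨j, hj⟩ := j
  rw [Matrix.smul_apply, smul_eq_mul]
  rcases lt_trichotomy i j with h | h | h
  · have hne : (⟨i, hi⟩ : Fin (2 * m)) ≠ ⟨j, hj⟩ := fun he => by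
      have := congrArg Fin.val he
      simp only at this
      omega
    rw [Matrix.one_apply_ne hne, mul_zero]
    have h5 := h3 i 0 (j - i) (by omega) (by omega)
    have e1 : (⟨0 + i, by omega⟩ : Fin (2 * m)) = ⟨i, hi⟩ := Fin.ext (by simp only; omega)
    have e2 : (⟨j - i + i, by omega⟩ : Fin (2 * m)) = ⟨j, hj⟩ := Fin.ext (by simp only; omega)
    rw [e1, e2] at h5
    rw [h5]
    exact hrow (j - i) (by omega) (by omega)
  · subst h
    rw [Matrix.one_apply_eq, mul_one]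
    have h5 := h3 i 0 0 (by omega) (by omega)
    have e1 : (⟨0 + i, by omega⟩ : Fin (2 * m)) = ⟨i, hi⟩ := Fin.ext (by simp only; omega)
    rw [e1] at h5
    exact h5
  · have hne : (⟨i, hi⟩ : Fin (2 * m)) ≠ ⟨j, hj⟩ := fun he => by
      have := congrArg Fin.val he
      simp only at this
      omega
    rw [Matrix.one_apply_ne hne, mul_zero]
    have h5 := h3 j (i - j) 0 (by omega) (by omega)
    have e1 : (⟨0 + j, by omega⟩ : Fin (2 * m)) = ⟨j, hj⟩ := Fin.ext (by simp only; omega)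
    have e2 : (⟨i - j + j, by omega⟩ : Fin (2 * m)) = ⟨i, hi⟩ := Fin.ext (by simp only; omega)
    rw [e1, e2] at h5
    rw [h5]
    have h6 := h1 (i - j - 1) (by omega)
    have e3 : (⟨i - j - 1 + 1, by omega⟩ : Fin (2 * m)) = ⟨i - j, by omega⟩ := Fin.ext (by simp only; omega)
    rw [e3] at h6
    exact h6

/-- LIM -/
theorem t_LIM : T_LIM := by
  intro k L _ _ _ _ m hm T M Q s κ hdet hs hN hJ
  have hunit : IsUnit T.det := isUnit_iff_ne_zero.2 hdet
  have hTi : T * T⁻¹ = 1 := Matrix.mul_nonsing_inv T hunit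
  have hiT : T⁻¹ * T = 1 := Matrix.nonsing_inv_mul T hunit
  -- cancel T on the right and Tᵀ on the left
  have cr : ∀ A B : Matrix (Fin (2 * m)) (Fin (2 * m)) L, A * T = B * T → A = B := by
    intro A B h
    have := congrArg (fun X => X * T⁻¹) h
    simp only [Matrix.mul_assoc, hTi, Matrix.mul_one] at this
    exact this
  have hTt : (T⁻¹)ᵀ * Tᵀ = 1 := by
    rw [← Matrix.transpose_mul, hTi, Matrix.transpose_one]
  have cl : ∀ A B : Matrix (Fin (2 * m)) (Fin (2 * m)) L, Tᵀ * A = Tᵀ * B → A = B := by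
    intro A B h
    have := congrArg (fun X => (T⁻¹)ᵀ * X) h
    simp only [← Matrix.mul_assoc, hTt, Matrix.one_mul] at this
    exact this
  have hκ : κ ≠ 0 := by
    intro h0
    rw [h0, zero_smul] at hJ
    have h1 : Jn (2 * m) L = 0 := by
      apply cl
      apply cr
      rw [hJ, Matrix.mul_zero, Matrix.zero_mul]
    have h2 := congrFun (congrFun h1 ⟨0, by omega⟩) ⟨2 * m - 1, by omega⟩
    have h3 : (0 : ℕ) + (2 * m - 1) + 1 = 2 * m := by omega
    simp only [Jn, Matrix.of_apply, h3, if_true, pow_zero, Matrix.zero_apply] at h2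
    exact one_ne_zero h2
  -- the projection
  let π : Matrix (Fin (2 * m)) (Fin (2 * m)) L →ₗ[L] (Fin (m + 1) → L) :=
    { toFun := fun X => Fin.cons ((X * T⁻¹) ⟨0, by omega⟩ ⟨0, by omega⟩ - (X * T⁻¹) ⟨1, by omega⟩ ⟨1, by omega⟩)
        (fun l : Fin m => (X * T⁻¹) ⟨0, by omega⟩ ⟨2 * (l : ℕ) + 1, by omega⟩)
      map_add' := by
        intro X Y
        funext l
        refine Fin.cases ?_ (fun l => ?_) l
        · simp only [Matrix.add_mul, Matrix.add_apply, Fin.cons_zero, Pi.add_apply]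
          ring
        · simp only [Matrix.add_mul, Matrix.add_apply, Fin.cons_succ, Pi.add_apply]
      map_smul' := by
        intro a X
        funext l
        refine Fin.cases ?_ (fun l => ?_) l
        · simp only [Matrix.smul_mul, Matrix.smul_apply, Fin.cons_zero, Pi.smul_apply, smul_eq_mul, RingHom.id_apply]
          ring
        · simp only [Matrix.smul_mul, Matrix.smul_apply, Fin.cons_succ, Pi.smul_apply, smul_eq_mul, RingHom.id_apply] }
  refine ⟨π, fun D hD => ?_⟩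
  have hD0 : (T.map D * T⁻¹) ⟨0, by omega⟩ ⟨0, by omega⟩ - (T.map D * T⁻¹) ⟨1, by omega⟩ ⟨1, by omega⟩ = 0 := by
    have := congrFun hD 0
    exact this
  have hDl : ∀ l : Fin m, (T.map D * T⁻¹) ⟨0, by omega⟩ ⟨2 * (l : ℕ) + 1, by omega⟩ = 0 := by
    intro l
    have := congrFun hD l.succ
    exact this
  generalize hZ : T.map D * T⁻¹ = Z at hD0 hDl
  have hTD : T.map D = Z * T := by
    rw [← hZ, Matrix.mul_assoc, hiT, Matrix.mul_one]
  -- first relation
  have r1 : s • (Z * Nn (2 * m) L) = D s • Nn (2 * m) L + s • (Nn (2 * m) L * Z) := by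
    apply cr
    have h : (T * M.map (algebraMap k L)).map D = (s • (Nn (2 * m) L * T)).map D := by rw [hN]
    rw [map_mul_der, map_alg_der, Matrix.mul_zero, add_zero, map_smul_der, map_mul_der, map_Nn_der, Matrix.zero_mul,
      zero_add, hTD, Matrix.mul_assoc, hN] at h
    rw [Matrix.smul_mul, Matrix.add_mul, Matrix.smul_mul, Matrix.smul_mul, Matrix.mul_assoc, Matrix.mul_assoc]
    rw [Matrix.mul_smul] at h
    exact h
  -- second relation
  have r2 : κ • (Zᵀ * Jn (2 * m) L + Jn (2 * m) L * Z) = D κ • Jn (2 * m) L := by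
    apply cl
    apply cr
    have h : (Tᵀ * Jn (2 * m) L * T).map D = (κ • Q.map (algebraMap k L)).map D := by rw [hJ]
    rw [map_mul_der, map_mul_der, map_Jn_der, Matrix.mul_zero, add_zero, map_smul_der, map_alg_der, smul_zero, add_zero,
      Matrix.transpose_map, hTD, Matrix.transpose_mul] at h
    rw [Matrix.mul_smul, Matrix.smul_mul, Matrix.mul_smul, Matrix.smul_mul, hJ, smul_comm (D κ) κ, ← h, Matrix.mul_add,
      Matrix.add_mul]
    simp only [Matrix.mul_assoc]
  have hDs : D s = 0 := by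
    have h := congrFun (congrFun r1 ⟨0, by omega⟩) ⟨0 + 1, by omega⟩
    rw [Matrix.smul_apply, mul_Nn_succ Z _ 0 (by omega), Matrix.add_apply, Matrix.smul_apply, Matrix.smul_apply,
      Nn_mul Z 0 (by omega)] at h
    have h1 : (Nn (2 * m) L) ⟨0, by omega⟩ ⟨0 + 1, by omega⟩ = 1 := by
      simp [Nn]
    rw [h1] at h
    simp only [smul_eq_mul, mul_one, zero_add] at h
    linear_combination -h + s * hD0
  have hcomm : Z * Nn (2 * m) L = Nn (2 * m) L * Z := by
    rw [hDs, zero_smul, zero_add] at r1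
    exact smul_right_injective _ hs r1
  have hJZ : Zᵀ * Jn (2 * m) L + Jn (2 * m) L * Z = (κ⁻¹ * D κ) • Jn (2 * m) L := by
    rw [mul_smul, ← r2, smul_smul, inv_mul_cancel₀ hκ, one_smul]
  refine ⟨Z ⟨0, by omega⟩ ⟨0, by omega⟩, ?_⟩
  rw [hTD]
  have h := scalar_of m hm Z hcomm (κ⁻¹ * D κ) hJZ hDl
  have h2 := congrArg (fun X => X * T) h
  simp only [Matrix.smul_mul, Matrix.one_mul] at h2
  exact h2

end Pool.Agent.Y362.HG
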